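import Pool.Agent.Run7.h659.KA6

/-!
# Mixed periods of all abelian covers of the line with given branch points

Let `S = {e_0, …, e_n}` be a finite set of complex numbers and let `U_m` be the Kummer cover `y_i ^ m = x - e_i` of
`ℙ¹ - S - ∞`, with group `(ℤ/m) ^ (n+1)`. All abelian covers of the line which are unramified outside `S ∪ ∞` (for example
all superelliptic curves `y ^ m = ∏ (x - e_i) ^ (a_i)`, the Fermat curves for `S = {0, 1}`) are quotients of the `U_m`. For a
character `χ = (χ_0, …, χ_n)`, `χ_i ∈ [0, 1)` rational, the forms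
`x ^ j ∏ (x - e_i) ^ (- χ_i) / ∏_(χ_i = 0) (x - e_i) dx`, `j < n`, and also `j = n` for `χ = 0`,
are a basis of the `χ`-part of `H¹_dR(U_m)`. Their primitives `Φ_(χ,j)(x)` are the abelian integrals of the first, second
and third kind on all the covers; the values at points `x_1, …, x_r` are, modulo the periods of the `U_m`, the periods of
the mixed motives `H¹(U_m, Z_m)`, with `Z_m` the points of `U_m` over `x_0, …, x_r`, that is, of 1-motives over the
generalised Jacobians of the `U_m`.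

The set `S` is fixed and arbitrary (it may consist of transcendental numbers), as are the branches and the paths of
integration. The result: for almost all algebraic points `x_1, …, x_r` (also on covers with different sets `S_1, …, S_r`)
the numbers `Φ_(χ,j)(x_t)` have no relation at all over the space of constants generated by arbitrary complex numbers
`ξ_i`, for example the monomials in the periods of the curves `U_m`, or of any other motives, in growing degree, height
and orders of the characters.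
-/

set_option autoImplicit false

open Filter NumberField

namespace Pool.Agent.Results.MP_5d33ca_ag.AbelianCoversOfTheLine

/-- Branch points `e_i`, a domain `V` with branches `L_i` of the logarithms of `x - e_i`, and primitives `Φ χ j` of
`x ^ j ∏ (x - e_i) ^ (- χ_i) / ∏_(χ_i = 0) (x - e_i)` on `V`, for all rational characters `χ` and all `j`. -/
structure LineData where
  /-- there are `n + 1` branch points -/
  n : ℕ
  /-- the branch points -/
  e : Fin (n + 1) → ℂ
  /-- the domain -/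
  V : Set ℂ
  /-- the logarithms -/
  L : Fin (n + 1) → ℂ → ℂ
  /-- the primitives -/
  Φ : (Fin (n + 1) → ℚ) → ℕ → ℂ → ℂ
  inj : Function.Injective e
  isOpen : IsOpen V
  isPreconnected : IsPreconnected V
  nonempty : V.Nonempty
  log : ∀ i, AnalyticOnNhd ℂ (L i) V
  exp_log : ∀ i, ∀ x ∈ V, Complex.exp (L i x) = x - e i
  primitive : ∀ χ j, ∀ x ∈ V, HasDerivAt (Φ χ j)
    (x ^ j * Complex.exp (-∑ i, (χ i : ℂ) * L i x) / ∏ i with χ i = 0, (x - e i)) x

/-- the pairs `(χ, j)`: the denominators of the coordinates of `χ`, `0 ≤ χ_i < 1`, are at most `k`, and `j < n`, or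
`χ = 0` and `j = n` -/
def Idx (n k : ℕ) : Set ((Fin (n + 1) → ℚ) × ℕ) :=
  {p | (∀ i, 0 ≤ p.1 i ∧ p.1 i < 1 ∧ (p.1 i).den ≤ k) ∧ (p.2 < n ∨ p.1 = 0 ∧ p.2 = n)}

/-- the names of the numbers: `t` is the number of the point -/
abbrev Ind {r : ℕ} (S : Fin r → LineData) (k : ℕ) : Type := Σ t, Idx (S t).n k

/-- the numbers `Φ_(χ,j)(x_t)` -/
def values {r : ℕ} (S : Fin r → LineData) {k : ℕ} (x : Fin r → ℂ) : Ind S k → ℂ :=
  fun s => (S s.1).Φ s.2.1.1 s.2.1.2 (x s.1)

/-- the points with `x_t ∈ V_t` -/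
def Dom {r : ℕ} (S : Fin r → LineData) : Set (Fin r → ℂ) := {x | ∀ t, x t ∈ (S t).V}

/-- `x` is a quotient of two integers of `K` all of whose conjugates are at most `T` in absolute value -/
def Height (K : Type) [Field K] [NumberField K] (T : ℝ) (x : K) : Prop :=
  ∃ a b : 𝓞 K, b ≠ 0 ∧ house (a : K) ≤ T ∧ house (b : K) ≤ T ∧ x = a / b

/-- the points of norm at most `k` at distance at least `1 / k` from the complement of `U` -/
def Inner {X : Type} [Fintype X] (U : Set (X → ℂ)) (k : ℕ) : Set (X → ℂ) := {z | ‖z‖ ≤ k ∧ Metric.ball z (k : ℝ)⁻¹ ⊆ U}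

/-- `S` is covered by `m` hypersurfaces of degree at most `D` -/
def Covered {X : Type} (D m : ℕ) (S : Set (X → ℂ)) : Prop :=
  ∃ Φ : Finset (MvPolynomial X ℂ), Φ.card ≤ m ∧ (∀ R ∈ Φ, R ≠ 0 ∧ R.totalDegree ≤ D) ∧
    ∀ x ∈ S, ∃ R ∈ Φ, MvPolynomial.eval x R = 0

/-- **The exceptional points** with coordinates in `K`, of height at most `T`, in the compact set `Inner (Dom S) k`: there
is a relation, a polynomial `P ≠ 0` of partial degrees at most `k` which vanishes at the numbers `Φ_(χ,j)(x_t)`, with the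
denominators of `χ` at most `k`, whose coefficients are combinations `∑ ξ i * c i` with integers `c i` of `K` all of whose
conjugates are at most `T ^ k` -/
def Exceptional {r : ℕ} (S : Fin r → LineData) (K : Type) [Field K] [NumberField K] (io : K →+* ℂ) (k : ℕ)
    (ξ : Fin k → ℂ) (T : ℝ) : Set (Fin r → K) :=
  {s | (∀ t, Height K T (s t)) ∧ (fun t => io (s t)) ∈ Inner (Dom S) k ∧
    ∃ P : MvPolynomial (Ind S k) ℂ, P ≠ 0 ∧ (∀ y, P.degreeOf y ≤ k) ∧
    (∀ m, ∃ c : Fin k → 𝓞 K, (∀ i (φ : K →+* ℂ), ‖φ (c i : K)‖ ≤ T ^ (k : ℝ)) ∧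
      P.coeff m = ∑ i, ξ i * io (c i : K)) ∧
    MvPolynomial.eval (values S fun t => io (s t)) P = 0}

theorem finite_idx (n k : ℕ) : (Idx n k).Finite := by
  have h1 : {χ : ℚ | 0 ≤ χ ∧ χ < 1 ∧ χ.den ≤ k}.Finite := by
    refine Set.Finite.subset ((Finset.range (k + 1) ×ˢ Finset.range (k + 1)).image
      (fun p : ℕ × ℕ => (p.1 : ℚ) / (p.2 : ℚ))).finite_toSet ?_
    rintro ρ ⟨h1, h2, h3⟩
    rw [Finset.mem_coe, Finset.mem_image]
    have hnum : 0 ≤ ρ.num := Rat.num_nonneg.2 h1
    have hden : (0 : ℚ) < ρ.den := by exact_mod_cast ρ.den_pos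
    have h4 := Rat.mul_den_eq_num ρ
    have hle : ρ.num < ρ.den := by
      have h5 : (ρ.num : ℚ) < ρ.den := by
        rw [← h4]
        nlinarith
      exact_mod_cast h5
    refine ⟨(ρ.num.toNat, ρ.den), ?_, ?_⟩
    · rw [Finset.mem_product, Finset.mem_range, Finset.mem_range]
      constructor
      · show ρ.num.toNat < k + 1
        omega
      · show ρ.den < k + 1
        omega
    · show ((ρ.num.toNat : ℕ) : ℚ) / (ρ.den : ℚ) = ρ
      have h5 : ((ρ.num.toNat : ℕ) : ℚ) = (ρ.num : ℚ) := by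
        have : ((ρ.num.toNat : ℕ) : ℤ) = ρ.num := Int.toNat_of_nonneg hnum
        exact_mod_cast this
      rw [h5, ← h4]
      field_simp
  have h2 : (Set.univ.pi fun _ : Fin (n + 1) => {χ : ℚ | 0 ≤ χ ∧ χ < 1 ∧ χ.den ≤ k}).Finite :=
    Set.Finite.pi fun _ => h1
  refine (h2.prod (Set.finite_Iic n)).subset ?_
  rintro ⟨χ, j⟩ ⟨h3, h4⟩
  refine ⟨fun i _ => h3 i, ?_⟩
  rcases h4 with h4 | h4
  · exact h4.le
  · exact h4.2.le

theorem exists_nat {χ : ℚ} {k : ℕ} (h0 : 0 ≤ χ) (h1 : χ < 1) (hk : χ.den ≤ k) :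
    ∃ m : Fin k.factorial, ((m : ℕ) : ℚ) = χ * k.factorial := by
  obtain ⟨c, hc⟩ : χ.den ∣ k.factorial := Nat.dvd_factorial χ.den_pos hk
  have hnum : 0 ≤ χ.num := Rat.num_nonneg.2 h0
  have h2 := Rat.mul_den_eq_num χ
  have h3 : ((χ.num.toNat : ℕ) : ℚ) = (χ.num : ℚ) := by
    have : ((χ.num.toNat : ℕ) : ℤ) = χ.num := Int.toNat_of_nonneg hnum
    exact_mod_cast this
  have h4 : ((χ.num.toNat * c : ℕ) : ℚ) = χ * k.factorial := by
    rw [hc]
    push_cast
    rw [h3, ← h2]
    ring
  have h5 : χ.num.toNat * c < k.factorial := by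
    have h6 : (0 : ℚ) < k.factorial := by exact_mod_cast k.factorial_pos
    have h7 : ((χ.num.toNat * c : ℕ) : ℚ) < (k.factorial : ℚ) := by
      rw [h4]
      nlinarith
    exact_mod_cast h7
  exact ⟨⟨_, h5⟩, h4⟩

theorem indep (S : LineData) (k : ℕ) :
    Pool.Agent.X255.RH.Indep S.V (fun (p : Idx S.n k) x => S.Φ p.1.1 p.1.2 x) := by
  classical
  have : Fintype (Idx S.n k) := (finite_idx S.n k).fintype
  have hb : ∀ (p : Idx S.n k) i, ∃ m : Fin k.factorial, ((m : ℕ) : ℚ) = p.1.1 i * k.factorial := fun p i =>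
    exists_nat (p.2.1 i).1 (p.2.1 i).2.1 (p.2.1 i).2.2
  choose b hb using hb
  have hk0 : (k.factorial : ℚ) ≠ 0 := by exact_mod_cast k.factorial_ne_zero
  have hχ : ∀ (p : Idx S.n k) i, p.1.1 i = ((b p i : ℕ) : ℚ) / k.factorial := fun p i => by
    rw [hb]
    field_simp
  have hz : ∀ (p : Idx S.n k) i, p.1.1 i = 0 ↔ (b p i : ℕ) = 0 := by
    intro p i
    constructor
    · intro h
      have h1 := hb p i
      rw [h, zero_mul] at h1
      exact_mod_cast h1
    · intro h
      rw [hχ, h]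
      simp
  refine Pool.Agent.Run7.h659.KA.prim S.isOpen S.nonempty S.inj k.factorial_pos S.log S.exp_log b
    (fun p => p.1.2) ?_ ?_ ?_ ?_ ?_
  · intro p q h1 h2
    apply Subtype.ext
    refine Prod.ext ?_ h2
    funext i
    rw [hχ, hχ, h1]
  · intro p
    rcases p.2.2 with h | h
    · omega
    · omega
  · rintro p ⟨i, hi⟩
    rcases p.2.2 with h | h
    · exact h
    · exfalso
      apply hi
      rw [← hz p i, h.1]
      rfl
  · intro p
    exact DifferentiableOn.analyticOnNhd (fun x hx => (S.primitive _ _ x hx).differentiableAt.differentiableWithinAt)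
      S.isOpen
  · intro p x hx
    rw [(S.primitive p.1.1 p.1.2 x hx).deriv]
    have h1 : (Pool.Agent.Run7.h659.KA.RR S.e (b p)).eval x = ∏ i with p.1.1 i = 0, (x - S.e i) := by
      unfold Pool.Agent.Run7.h659.KA.RR
      rw [Polynomial.eval_prod, Finset.prod_filter]
      refine Finset.prod_congr rfl fun i _ => ?_
      simp only [hz p i]
      split_ifs <;> simp
    have h2 : ∏ i with p.1.1 i = 0, (x - S.e i) ≠ 0 := by
      rw [Finset.prod_ne_zero_iff]
      intro i _
      rw [← S.exp_log i x hx]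
      exact Complex.exp_ne_zero _
    rw [h1, div_mul_cancel₀ _ h2]
    congr 3
    refine Finset.sum_congr rfl fun i _ => ?_
    congr 1
    rw [hχ]
    push_cast
    rfl

/-- **Mixed periods of all abelian covers of the line.** Let `r ≥ 1` and let `S_1, …, S_r` be such data. The functions
`Φ_(χ,j)(x_t)` of `x_1, …, x_r` are algebraically independent over `ℂ(x_1, …, x_r)`. There is `ω → ∞` such that for all
large `T`, all number fields `K` of degree at most `ω T`, all embeddings and all complex numbers `ξ i`, `i < ω T`, the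
exceptional points with coordinates in `K` of height at most `T` lie on at most `T ^ (1 / ω T)` hypersurfaces of degree at
most `T ^ (1 / ω T)`, and there are at most `T ^ (1 / ω T) * N_K ^ (r - 1)` of them, `N_K` being the number of elements of
`K` of height at most `T`. -/
theorem result {r : ℕ} (hr : 0 < r) (S : Fin r → LineData) :
    (∀ (k : ℕ) (p : MvPolynomial (Ind S k) (MvPolynomial (Fin r) ℂ)),
      (∀ x ∈ Dom S, p.eval₂ (MvPolynomial.eval x) (values S x) = 0) → p = 0) ∧
    ∃ (ω : ℝ → ℕ) (T₀ : ℝ), Tendsto ω atTop atTop ∧ Monotone ω ∧ ∀ T, T₀ ≤ T → 0 < ω T ∧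
      ∀ (K : Type) [Field K] [NumberField K], Module.finrank ℚ K ≤ ω T → ∀ (io : K →+* ℂ) (ξ : Fin (ω T) → ℂ),
        Covered ⌊T ^ ((ω T : ℝ)⁻¹)⌋₊ ⌊T ^ ((ω T : ℝ)⁻¹)⌋₊
          ((fun (s : Fin r → K) t => io (s t)) '' Exceptional S K io (ω T) ξ T) ∧
        (Exceptional S K io (ω T) ξ T).Finite ∧
        ((Exceptional S K io (ω T) ξ T).ncard : ℝ) ≤
          T ^ ((ω T : ℝ)⁻¹) * ({x : K | Height K T x}.ncard : ℝ) ^ (r - 1) := by
  classical
  have hft : ∀ m k, Fintype (Idx m k) := fun m k => (finite_idx m k).fintype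
  have hall : ∀ (k : ℕ) (p : MvPolynomial (Ind S k) (MvPolynomial (Fin r) ℂ)),
      (∀ x ∈ Dom S, p.eval₂ (MvPolynomial.eval x) (values S x) = 0) →
      ∀ x Y, p.eval₂ (MvPolynomial.eval x) Y = 0 := by
    intro k p hp x Y
    exact Pool.Agent.Run7.h659.KA.multi (V := fun t => (S t).V)
      (f := fun t (q : Idx (S t).n k) x => (S t).Φ q.1.1 q.1.2 x) (fun t => indep (S t) k) p (fun x hx => hp x hx) x Y
  refine ⟨fun k p hp => Pool.Agent.Run7.h659.KA.eq_zero_of_ev p (hall k p hp), ?_⟩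
  have hne : Nonempty (Fin r) := ⟨⟨0, hr⟩⟩
  have hopen : IsOpen (Dom S) := by
    have h1 : Dom S = Set.univ.pi fun t => (S t).V := by
      ext x
      simp [Dom]
    rw [h1]
    exact isOpen_set_pi Set.finite_univ fun t _ => (S t).isOpen
  have hconn : IsPreconnected (Dom S) := by
    have h1 : Dom S = Set.univ.pi fun t => (S t).V := by
      ext x
      simp [Dom]
    rw [h1]
    exact isPreconnected_univ_pi fun t => (S t).isPreconnected
  have hnon : (Dom S).Nonempty := ⟨fun t => (S t).nonempty.choose, fun t => (S t).nonempty.choose_spec⟩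
  have han : ∀ (k : ℕ) (y : Ind S k), AnalyticOnNhd ℂ (fun x => values S x y) (Dom S) := by
    intro k y x hx
    have h1 : AnalyticAt ℂ ((S y.1).Φ y.2.1.1 y.2.1.2) (x y.1) :=
      DifferentiableOn.analyticOnNhd
        (fun x hx => ((S y.1).primitive _ _ x hx).differentiableAt.differentiableWithinAt) (S y.1).isOpen _ (hx y.1)
    exact AnalyticAt.comp (g := (S y.1).Φ y.2.1.1 y.2.1.2) (f := fun x : Fin r → ℂ => x y.1) h1
      (ContinuousLinearMap.analyticAt (ContinuousLinearMap.proj (R := ℂ) (φ := fun _ : Fin r => ℂ) y.1) x)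
  have hfew : N207.GS.Few (X := Fin r) (fun K _ _ io k ξ T => Exceptional S K io k ξ T) := ?_
  · obtain ⟨ω, T₀, h1, h2, h3⟩ := hfew
    refine ⟨ω, T₀, h1, h2, fun T hT => ⟨(h3 T hT).1, fun K _ _ hK io ξ => ?_⟩⟩
    obtain ⟨h4, h5, h6⟩ := (h3 T hT).2 K hK io ξ
    refine ⟨h4, h5, ?_⟩
    rw [Fintype.card_fin] at h6
    exact h6
  refine N207.GS.few_of (X := Fin r) (fun K _ _ io k ξ T => Exceptional S K io k ξ T)
    (fun K _ _ io k ξ T s hs => hs.1) ?_
  intro k ε hk hε
  obtain ⟨D, C, T₀, hC, hT₀, H⟩ := N207.GS.comp (X := Fin r) (U := Dom S) (f := fun (y : Ind S k) x => values S x y)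
    hconn hopen hnon (han k)
    (Y890.MV.InnerM (Dom S) k) (Y890.MV.innerM_compact _ _) (Y890.MV.innerM_sub _ hk) k (Fin k) k k ε hε
  refine ⟨D, C, T₀, hC, hT₀, fun K _ _ hK io ξ T hT => ?_⟩
  refine Y124.Cov.mono (H K hK io ξ T hT) le_rfl le_rfl (Set.image_mono ?_)
  rintro s ⟨h1, h2, P, h0, h3, h4, h5⟩
  choose c hc hc' using h4
  obtain ⟨Y, hY⟩ : ∃ Y, MvPolynomial.eval Y P ≠ 0 := by
    by_contra hcon
    push Not at hcon
    exact h0 (MvPolynomial.funext fun Y => by rw [map_zero]; exact hcon Y)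
  refine ⟨h1, h2, fun l => c (Finsupp.equivFunOnFinite.symm fun y => (l y : ℕ)), fun l i φ => hc _ i φ, ?_,
    Set.univ, Pool.Agent.Run7.h659.KA.irr_univ, Set.mem_univ _, ?_, Y, Set.mem_univ _, ?_⟩
  · rw [← h5, ← Y119.PLM.sum_expM h3]
    refine Finset.sum_congr rfl fun l _ => ?_
    rw [hc']
  · intro Z _ p hp
    exact hall k p (fun x hx => hp x hx) _ Z
  · intro h7
    apply hY
    rw [← h7, ← Y119.PLM.sum_expM h3]
    refine Finset.sum_congr rfl fun l _ => ?_
    rw [hc']

end Pool.Agent.Results.MP_5d33ca_ag.AbelianCoversOfTheLine
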