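import Pool.Agent.Run7.h659.CC10

/-!
# Periods of the cyclic covers `y ^ N = ∏ (x - e_i)`, all `N` at once

For a rational number `ρ = m / N` the integrals of `x ^ j ∏ (x - e_i) ^ (- ρ) dx`, `j < n`, between consecutive points
`e_0, …, e_n` are periods of the curve `y ^ N = ∏ (x - e_i)` (of the differentials `x ^ j dx / y ^ m`). They form an
`n × n` matrix `P_ρ (e)`. We show that the relations between the matrices `P_ρ`, for all `ρ` in `(0, 1 / 2)` with
denominators different from `4`, `6`, `10` and `(n + 1) ρ` not an integer, are those between their determinants: over the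
field of rational functions of `e`, and, in growing degree, height and denominators, at almost all algebraic points.
-/

set_option autoImplicit false

open Filter NumberField

namespace Pool.Agent.Results.MP_77d3f5_ag.CyclicCovers

/-- the integral over the segment from `e_l` to `e_(l+1)` of
`x ^ j ∏_(i ≤ l) (x - e_i) ^ (- ρ) ∏_(i > l) (e_i - x) ^ (- ρ) dx` (principal values of the powers) -/
noncomputable def period {n : ℕ} (ρ : ℚ) (e : Fin (n + 1) → ℂ) (l : Fin n) (j : ℕ) : ℂ :=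
  ∫ u in (0 : ℝ)..1, (e l.succ - e l.castSucc) *
    (fun x : ℂ => x ^ j * ∏ i, (if i ≤ l.castSucc then x - e i else e i - x) ^ (-(ρ : ℂ)))
      ((1 - u) * e l.castSucc + u * e l.succ)

/-- the exponents: the rational numbers in `(0, 1 / 2)` of denominator at most `k`, different from `4`, `6` and `10`,
whose product with `n + 1` is not an integer -/
def Expo (n k : ℕ) : Set ℚ :=
  {ρ | 0 < ρ ∧ ρ < 1 / 2 ∧ ρ.den ≤ k ∧ ρ.den ≠ 4 ∧ ρ.den ≠ 6 ∧ ρ.den ≠ 10 ∧ ∀ b : ℤ, ((n : ℚ) + 1) * ρ ≠ b}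

/-- the period matrices: the rows correspond to the segments, the columns to the differentials -/
noncomputable def periodMatrix {n k : ℕ} (e : Fin (n + 1) → ℂ) (ρ : Expo n k) : Matrix (Fin n) (Fin n) ℂ :=
  Matrix.of fun l j => period (ρ : ℚ) e l (j : ℕ)

/-- the domain: points with increasing real parts -/
def Dom (n : ℕ) : Set (Fin (n + 1) → ℂ) := {e | ∀ i k : Fin (n + 1), i < k → (e i).re < (e k).re}

/-- the value at a system of matrices of a polynomial in the entries -/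
noncomputable def value {n k : ℕ} (P : MvPolynomial (Expo n k × Fin n × Fin n) ℂ)
    (Y : Expo n k → Matrix (Fin n) (Fin n) ℂ) : ℂ := MvPolynomial.eval (fun x => Y x.1 x.2.1 x.2.2) P

/-- `x` is a quotient of two integers of `K` all of whose conjugates are at most `T` in absolute value -/
def Height (K : Type) [Field K] [NumberField K] (T : ℝ) (x : K) : Prop :=
  ∃ a b : 𝓞 K, b ≠ 0 ∧ house (a : K) ≤ T ∧ house (b : K) ≤ T ∧ x = a / b

/-- the points of norm at most `k` at distance at least `1 / k` from the complement of `U` -/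
def Inner {X : Type} [Fintype X] (U : Set (X → ℂ)) (k : ℕ) : Set (X → ℂ) := {z | ‖z‖ ≤ k ∧ Metric.ball z (k : ℝ)⁻¹ ⊆ U}

/-- `S` is covered by `m` hypersurfaces of degree at most `D` -/
def Covered {X : Type} (D m : ℕ) (S : Set (X → ℂ)) : Prop :=
  ∃ Φ : Finset (MvPolynomial X ℂ), Φ.card ≤ m ∧ (∀ R ∈ Φ, R ≠ 0 ∧ R.totalDegree ≤ D) ∧
    ∀ x ∈ S, ∃ R ∈ Φ, MvPolynomial.eval x R = 0

/-- **The exceptional points** with coordinates in `K`, of height at most `T`, in the compact set `Inner (Dom n) k`: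
some polynomial `P` in the entries of the matrices `P_ρ`, `ρ ∈ Expo n k`, of partial degrees at most `k`, whose
coefficients are combinations `∑ ξ i * c i` with integers `c i` of `K` all of whose conjugates are at most `T ^ k`,
vanishes at the period matrices `P_ρ (s)`, but not at some system `g_ρ P_ρ (s)` with `det g_ρ = 1` -/
def Exceptional (n : ℕ) (K : Type) [Field K] [NumberField K] (io : K →+* ℂ) (k : ℕ) (ξ : Fin k → ℂ) (T : ℝ) :
    Set (Fin (n + 1) → K) :=
  {s | (∀ i, Height K T (s i)) ∧ (fun i => io (s i)) ∈ Inner (Dom n) k ∧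
    ∃ P : MvPolynomial (Expo n k × Fin n × Fin n) ℂ, (∀ y, P.degreeOf y ≤ k) ∧
    (∀ m, ∃ c : Fin k → 𝓞 K, (∀ i (φ : K →+* ℂ), ‖φ (c i : K)‖ ≤ T ^ (k : ℝ)) ∧
      P.coeff m = ∑ i, ξ i * io (c i : K)) ∧
    value P (periodMatrix fun i => io (s i)) = 0 ∧
    ∃ g : Expo n k → Matrix (Fin n) (Fin n) ℂ, (∀ ρ, (g ρ).det = 1) ∧
      value P (fun ρ => g ρ * periodMatrix (fun i => io (s i)) ρ) ≠ 0}

theorem finite_expo (n k : ℕ) : (Expo n k).Finite := by
  refine Set.Finite.subset ((Finset.range (k + 1) ×ˢ Finset.range (k + 1)).image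
    (fun p : ℕ × ℕ => (p.1 : ℚ) / (p.2 : ℚ))).finite_toSet ?_
  rintro ρ ⟨h1, h2, h3, -⟩
  rw [Finset.mem_coe, Finset.mem_image]
  have hnum : 0 < ρ.num := Rat.num_pos.2 h1
  have hden : (0 : ℚ) < ρ.den := by exact_mod_cast ρ.den_pos
  have h4 := Rat.mul_den_eq_num ρ
  have hle : ρ.num < ρ.den := by
    have h5 : (ρ.num : ℚ) < ρ.den := by
      rw [← h4]
      nlinarith
    exact_mod_cast h5
  refine ⟨(ρ.num.toNat, ρ.den), ?_, ?_⟩
  · rw [Finset.mem_product, Finset.mem_range, Finset.mem_range]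
    constructor
    · show ρ.num.toNat < k + 1
      omega
    · show ρ.den < k + 1
      omega
  · show ((ρ.num.toNat : ℕ) : ℚ) / (ρ.den : ℚ) = ρ
    have h5 : ((ρ.num.toNat : ℕ) : ℚ) = (ρ.num : ℚ) := by
      have : ((ρ.num.toNat : ℕ) : ℤ) = ρ.num := Int.toNat_of_nonneg hnum.le
      exact_mod_cast this
    rw [h5, ← h4]
    field_simp

theorem adm (n k : ℕ) : Pool.Agent.Run7.h659.CC.Adm n (fun ρ : Expo n k => (ρ : ℚ)) where
  inj := Subtype.val_injective
  pos := fun ρ => ρ.2.1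
  lt := fun ρ => ρ.2.2.1
  den := fun ρ => ⟨ρ.2.2.2.2.1, ρ.2.2.2.2.2.1, ρ.2.2.2.2.2.2.1⟩
  int := fun ρ => ρ.2.2.2.2.2.2.2

theorem real_value {n : ℕ} (ρ : ℚ) (e : Fin (n + 1) → ℝ) (he : StrictMono e) (l : Fin n) (j : ℕ) :
    period ρ (fun i => (e i : ℂ)) l j =
      ((∫ x in (e l.castSucc)..(e l.succ), x ^ j * ∏ i, |x - e i| ^ (-(ρ : ℝ)) : ℝ) : ℂ) := by
  have h1 := Pool.Agent.Run7.h659.SE.per_real (ν := fun _ => (ρ : ℝ)) he l j
  have h2 : period ρ (fun i => (e i : ℂ)) l j =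
      Pool.Agent.Run7.h659.SE.per (fun _ => ((ρ : ℝ) : ℂ)) (fun i => (e i : ℂ)) l j := by
    simp only [Complex.ofReal_ratCast]
    rfl
  rw [h2, h1]
  congr 1
  refine intervalIntegral.integral_congr fun x hx => ?_
  rw [Set.uIcc_of_le (he Fin.castSucc_lt_succ).le] at hx
  simp only [Pool.Agent.Run7.h659.SE.wt]
  congr 1
  refine Finset.prod_congr rfl fun i _ => ?_
  by_cases h : i ≤ l.castSucc
  · rw [if_pos h, abs_of_nonneg]
    have := he.monotone h
    linarith [hx.1]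
  · rw [if_neg h, abs_of_nonpos, neg_sub]
    have := he.monotone (Fin.castSucc_lt_iff_succ_le.1 (not_le.1 h))
    linarith [hx.2]

/-- **Periods of cyclic covers.** The integrals are analytic functions of the points; for real points they are the
integrals of `x ^ j ∏ |x - e_i| ^ (- ρ)`, and the matrices `P_ρ` are invertible. Every polynomial relation between the
entries of the matrices `P_ρ`, `ρ ∈ Expo n k`, with coefficients polynomials in the points, is preserved by all systems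
`g_ρ` of matrices with determinant one: it holds for `g_ρ P_ρ`. There is `ω → ∞` such that for all large `T`, all number
fields `K` of degree at most `ω T`, all embeddings and all complex numbers `ξ i`, `i < ω T`, the exceptional points of
`K ^ (n + 1)` of height at most `T` lie on at most `T ^ (1 / ω T)` hypersurfaces of degree at most `T ^ (1 / ω T)`, and
there are at most `T ^ (1 / ω T) * N_K ^ n` of them, `N_K` being the number of elements of `K` of height at most `T`. -/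
theorem result (n : ℕ) :
    (∀ ρ : ℚ, ρ < 1 → ∀ (l : Fin n) (j : ℕ), AnalyticOnNhd ℂ (fun e => period ρ e l j) (Dom n)) ∧
    (∀ (ρ : ℚ) (e : Fin (n + 1) → ℝ), StrictMono e → ∀ (l : Fin n) (j : ℕ),
      period ρ (fun i => (e i : ℂ)) l j =
        ((∫ x in (e l.castSucc)..(e l.succ), x ^ j * ∏ i, |x - e i| ^ (-(ρ : ℝ)) : ℝ) : ℂ)) ∧
    (∀ (k : ℕ) (e : Fin (n + 1) → ℝ), StrictMono e → ∀ ρ : Expo n k,
      (periodMatrix (fun i => (e i : ℂ)) ρ).det ≠ 0) ∧
    (∀ (k : ℕ) (p : MvPolynomial (Expo n k × Fin n × Fin n) (MvPolynomial (Fin (n + 1)) ℂ)),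
      (∀ e ∈ Dom n, p.eval₂ (MvPolynomial.eval e) (fun x => periodMatrix e x.1 x.2.1 x.2.2) = 0) →
      ∀ g : Expo n k → Matrix (Fin n) (Fin n) ℂ, (∀ ρ, (g ρ).det = 1) → ∀ e ∈ Dom n,
        p.eval₂ (MvPolynomial.eval e) (fun x => (g x.1 * periodMatrix e x.1) x.2.1 x.2.2) = 0) ∧
    ∃ (ω : ℝ → ℕ) (T₀ : ℝ), Tendsto ω atTop atTop ∧ Monotone ω ∧ ∀ T, T₀ ≤ T → 0 < ω T ∧
      ∀ (K : Type) [Field K] [NumberField K], Module.finrank ℚ K ≤ ω T → ∀ (io : K →+* ℂ) (ξ : Fin (ω T) → ℂ),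
        Covered ⌊T ^ ((ω T : ℝ)⁻¹)⌋₊ ⌊T ^ ((ω T : ℝ)⁻¹)⌋₊
          ((fun (s : Fin (n + 1) → K) i => io (s i)) '' Exceptional n K io (ω T) ξ T) ∧
        (Exceptional n K io (ω T) ξ T).Finite ∧
        ((Exceptional n K io (ω T) ξ T).ncard : ℝ) ≤
          T ^ ((ω T : ℝ)⁻¹) * ({x : K | Height K T x}.ncard : ℝ) ^ n := by
  classical
  have hft : ∀ k, Fintype (Expo n k) := fun k => (finite_expo n k).fintype
  have hpm : ∀ (k : ℕ) (e : Fin (n + 1) → ℂ),
      periodMatrix (k := k) e = Pool.Agent.Run7.h659.CC.FM (fun ρ : Expo n k => (ρ : ℚ)) e := fun _ _ => rfl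
  have hfn : ∀ k : ℕ, (fun (x : Expo n k × Fin n × Fin n) (e : Fin (n + 1) → ℂ) =>
      periodMatrix e x.1 x.2.1 x.2.2) = Pool.Agent.Run7.h659.CC.fn (fun ρ : Expo n k => (ρ : ℚ)) := fun _ => rfl
  refine ⟨?_, fun ρ e he l j => real_value ρ e he l j, ?_, ?_, ?_⟩
  · intro ρ hρ l j
    exact Pool.Agent.Run7.h659.CC.per_an hρ l j
  · intro k e he ρ
    have h1 := Pool.Agent.Run7.h659.SE.det_FF (ν := Pool.Agent.Run7.h659.CC.nu n (fun ρ : Expo n k => (ρ : ℚ)))
      (fun i _ => ⟨by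
        have h2 : (0 : ℝ) < ((i : ℚ) : ℝ) := by exact_mod_cast i.2.1
        exact h2.le, by
        have h2 : ((i : ℚ) : ℝ) < ((1 / 2 : ℚ) : ℝ) := by exact_mod_cast i.2.2.1
        push_cast at h2
        show ((i : ℚ) : ℝ) < 1
        linarith⟩) he ρ
    rw [← Pool.Agent.Run7.h659.CC.FM_real] at h1
    exact h1
  · intro k p hp g hg e he
    have := hft k
    exact Pool.Agent.Run7.h659.CC.orb_fib (adm n k) he ⟨g, hg, rfl⟩ p hp
  · have hfew : N207.GS.Few (X := Fin (n + 1)) (fun K _ _ io k ξ T => Exceptional n K io k ξ T) := ?_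
    · obtain ⟨ω, T₀, h1, h2, h3⟩ := hfew
      refine ⟨ω, T₀, h1, h2, fun T hT => ⟨(h3 T hT).1, fun K _ _ hK io ξ => ?_⟩⟩
      obtain ⟨h4, h5, h6⟩ := (h3 T hT).2 K hK io ξ
      refine ⟨h4, h5, ?_⟩
      rw [Fintype.card_fin, Nat.add_sub_cancel] at h6
      exact h6
    refine N207.GS.few_of (X := Fin (n + 1)) (fun K _ _ io k ξ T => Exceptional n K io k ξ T)
      (fun K _ _ io k ξ T s hs => hs.1) ?_
    intro k ε hk hε
    have := hft k
    obtain ⟨D, C, T₀, hC, hT₀, H⟩ := N207.GS.comp (X := Fin (n + 1)) (U := Dom n)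
      (f := Pool.Agent.Run7.h659.CC.fn (n := n) (fun ρ : Expo n k => (ρ : ℚ)))
      (Y890.HE.Ord_convex n).isPreconnected (Y890.HE.Ord_open n) (Y890.HE.Ord_nonempty n)
      (fun x => Pool.Agent.Run7.h659.CC.fn_an (fun i => by have := i.2.2.1; linarith) x)
      (Y890.MV.InnerM (Dom n) k) (Y890.MV.innerM_compact _ _) (Y890.MV.innerM_sub _ hk) k (Fin k) k k ε hε
    refine ⟨D, C, T₀, hC, hT₀, fun K _ _ hK io ξ T hT => ?_⟩
    refine Y124.Cov.mono (H K hK io ξ T hT) le_rfl le_rfl (Set.image_mono ?_)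
    rintro s ⟨h1, h2, P, h3, h4, h5, g, hg, h6⟩
    choose c hc hc' using h4
    refine ⟨h1, h2, fun l => c (Finsupp.equivFunOnFinite.symm fun y => (l y : ℕ)), fun l i φ => hc _ i φ, ?_,
      Pool.Agent.Run7.h659.CC.Orb (Pool.Agent.Run7.h659.CC.FM (fun ρ : Expo n k => (ρ : ℚ)) fun i => io (s i)),
      Pool.Agent.Run7.h659.CC.irr_orb _, ⟨1, fun _ => Matrix.det_one, ?_⟩,
      Pool.Agent.Run7.h659.CC.orb_fib (adm n k) (Y890.MV.innerM_sub _ hk h2), _, ⟨g, hg, rfl⟩, ?_⟩
    · rw [← h5]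
      unfold value
      rw [← Y119.PLM.sum_expM h3]
      refine Finset.sum_congr rfl fun l _ => ?_
      rw [hc']
      rfl
    · funext x
      rw [Pi.one_apply, one_mul]
      rfl
    · intro h7
      apply h6
      rw [← h7]
      unfold value
      rw [← Y119.PLM.sum_expM h3]
      refine Finset.sum_congr rfl fun l _ => ?_
      rw [hc']
      rfl

end Pool.Agent.Results.MP_77d3f5_ag.CyclicCovers
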