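import Pool.Agent.Run7.h659.MX4

/-!
# Mixed periods of the cyclic covers `y ^ m = ∏ (x - e_i)`, all `m` at once, relative to marked points

Let `C_m` be the curve `y ^ m = ∏ (x - e_i)`, `i ≤ n`, and let `S_m` be the set of its points over `∞`, over one of the
branch points and over marked points `b_1, …, b_r` of the line. The periods of the mixed motives `H¹(C_m, S_m)` (duals of
1-motives `[ℤ^s → J(C_m)]`) over all the curves are, for the characters `ρ = a / m`,
* the integrals of `x ^ j dx / y ^ a = x ^ j ∏ (x - e_i) ^ (- ρ) dx`, `j < n`, between consecutive points `e_l`, an `n × n`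
  matrix `P_ρ` (the periods of the Jacobian of `C_m`; the matrices `P_(1-ρ)` are determined by `π` and `P_ρ`);
* the incomplete integrals `Q_(σ,t,j)` of `x ^ j ∏ (x - e_i) ^ (- σ) dx` from `e_n` to the marked point `b_t` (abelian
  logarithms and integrals of the second kind), for all characters `σ` in `(0, 1)`.

We consider `N` such families at the same time, with independent branch points and marked points. The relations between
all these functions are those given by the determinants of the `P_ρ`: the incomplete integrals are arbitrary, also in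
relation to the closed ones. In growing degree, height and denominators of the characters, this holds for the periods at
almost all algebraic points.
-/

set_option autoImplicit false

open Filter NumberField

namespace Pool.Agent.Results.MP_5d33ca_ag.MixedCyclicCovers

variable {N : ℕ}

/-- the integral over the segment from `e_l` to `e_(l+1)` of
`x ^ j ∏_(i ≤ l) (x - e_i) ^ (- ρ) ∏_(i > l) (e_i - x) ^ (- ρ) dx` (principal values of the powers) -/
noncomputable def period {n : ℕ} (ρ : ℚ) (e : Fin (n + 1) → ℂ) (l : Fin n) (j : ℕ) : ℂ :=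
  ∫ u in (0 : ℝ)..1, (e l.succ - e l.castSucc) *
    (fun x : ℂ => x ^ j * ∏ i, (if i ≤ l.castSucc then x - e i else e i - x) ^ (-(ρ : ℂ)))
      ((1 - u) * e l.castSucc + u * e l.succ)

/-- the integral over the segment from the last point `e_n` to `b` of `x ^ j ∏ (x - e_i) ^ (- σ) dx` -/
noncomputable def incomplete {n : ℕ} (σ : ℚ) (e : Fin (n + 1) → ℂ) (b : ℂ) (j : ℕ) : ℂ :=
  ∫ u in (0 : ℝ)..1, (b - e (Fin.last n)) *
    (fun x : ℂ => x ^ j * ∏ i, (x - e i) ^ (-(σ : ℂ))) ((1 - u) * e (Fin.last n) + u * b)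

/-- the characters of the closed integrals: the rational numbers in `(0, 1 / 2)` of denominator at most `k`, different
from `4`, `6` and `10`, whose product with `n + 1` is not an integer -/
def Expo (n k : ℕ) : Set ℚ :=
  {ρ | 0 < ρ ∧ ρ < 1 / 2 ∧ ρ.den ≤ k ∧ ρ.den ≠ 4 ∧ ρ.den ≠ 6 ∧ ρ.den ≠ 10 ∧ ∀ b : ℤ, ((n : ℚ) + 1) * ρ ≠ b}

/-- the characters of the incomplete integrals: the rational numbers in `(0, 1)` of denominator at most `k` -/
def Frac (k : ℕ) : Set ℚ := {σ | 0 < σ ∧ σ < 1 ∧ σ.den ≤ k}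

/-- the names of the points: for the family `j` the branch points `e_0, …, e_(n j)` and `r j` marked points -/
abbrev Coord (n r : Fin N → ℕ) : Type := Σ j, Fin (n j + 1) ⊕ Fin (r j)

/-- the branch points of the family `j` -/
def branch {n r : Fin N → ℕ} {R : Type} (z : Coord n r → R) (j : Fin N) : Fin (n j + 1) → R := fun i => z ⟨j, Sum.inl i⟩

/-- the marked points of the family `j` -/
def marked {n r : Fin N → ℕ} {R : Type} (z : Coord n r → R) (j : Fin N) : Fin (r j) → R := fun t => z ⟨j, Sum.inr t⟩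

/-- the domain: the real parts of the branch points increase, those of the marked points are larger -/
def Dom (n r : Fin N → ℕ) : Set (Coord n r → ℂ) :=
  {z | ∀ j, (∀ i k, i < k → (branch z j i).re < (branch z j k).re) ∧
    ∀ t, (branch z j (Fin.last (n j))).re < (marked z j t).re}

/-- the matrix `P_ρ` of the family `j`: the rows correspond to the segments, the columns to the differentials -/
noncomputable def closed {n r : Fin N → ℕ} {k : ℕ} (z : Coord n r → ℂ) (j : Fin N) (ρ : Expo (n j) k) :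
    Matrix (Fin (n j)) (Fin (n j)) ℂ := Matrix.of fun l i => period (ρ : ℚ) (branch z j) l (i : ℕ)

/-- the names of the periods -/
abbrev Ind (n r : Fin N → ℕ) (k : ℕ) : Type :=
  Σ j, (Expo (n j) k × Fin (n j) × Fin (n j)) ⊕ (Frac k × Fin (r j) × Fin (n j))

/-- the periods -/
noncomputable def periods {n r : Fin N → ℕ} {k : ℕ} (z : Coord n r → ℂ) : Ind n r k → ℂ
  | ⟨j, Sum.inl x⟩ => closed z j x.1 x.2.1 x.2.2
  | ⟨j, Sum.inr y⟩ => incomplete (y.1 : ℚ) (branch z j) (marked z j y.2.1) (y.2.2 : ℕ)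

/-- the torsor: `Y` consists of matrices `g_ρ P_ρ` with `det g_ρ = 1` at the places of the closed integrals and of
arbitrary numbers at the places of the incomplete integrals -/
def Torsor {n r : Fin N → ℕ} {k : ℕ} (z : Coord n r → ℂ) : Set (Ind n r k → ℂ) :=
  {Y | ∃ g : ∀ j, Expo (n j) k → Matrix (Fin (n j)) (Fin (n j)) ℂ, (∀ j ρ, (g j ρ).det = 1) ∧
    ∀ j ρ l i, Y ⟨j, Sum.inl (ρ, l, i)⟩ = (g j ρ * closed z j ρ) l i}

/-- `x` is a quotient of two integers of `K` all of whose conjugates are at most `T` in absolute value -/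
def Height (K : Type) [Field K] [NumberField K] (T : ℝ) (x : K) : Prop :=
  ∃ a b : 𝓞 K, b ≠ 0 ∧ house (a : K) ≤ T ∧ house (b : K) ≤ T ∧ x = a / b

/-- the points of norm at most `k` at distance at least `1 / k` from the complement of `U` -/
def Inner {X : Type} [Fintype X] (U : Set (X → ℂ)) (k : ℕ) : Set (X → ℂ) := {z | ‖z‖ ≤ k ∧ Metric.ball z (k : ℝ)⁻¹ ⊆ U}

/-- `S` is covered by `m` hypersurfaces of degree at most `D` -/
def Covered {X : Type} (D m : ℕ) (S : Set (X → ℂ)) : Prop :=
  ∃ Φ : Finset (MvPolynomial X ℂ), Φ.card ≤ m ∧ (∀ R ∈ Φ, R ≠ 0 ∧ R.totalDegree ≤ D) ∧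
    ∀ x ∈ S, ∃ R ∈ Φ, MvPolynomial.eval x R = 0

/-- **The exceptional points** with coordinates in `K`, of height at most `T`, in the compact set `Inner (Dom n r) k`:
some polynomial `P` in the periods, of partial degrees at most `k`, whose coefficients are combinations `∑ ξ i * c i` with
integers `c i` of `K` all of whose conjugates are at most `T ^ k`, vanishes at the periods, but not on the torsor -/
def Exceptional (n r : Fin N → ℕ) (K : Type) [Field K] [NumberField K] (io : K →+* ℂ) (k : ℕ) (ξ : Fin k → ℂ) (T : ℝ) :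
    Set (Coord n r → K) :=
  {s | (∀ i, Height K T (s i)) ∧ (fun i => io (s i)) ∈ Inner (Dom n r) k ∧
    ∃ P : MvPolynomial (Ind n r k) ℂ, (∀ y, P.degreeOf y ≤ k) ∧
    (∀ m, ∃ c : Fin k → 𝓞 K, (∀ i (φ : K →+* ℂ), ‖φ (c i : K)‖ ≤ T ^ (k : ℝ)) ∧
      P.coeff m = ∑ i, ξ i * io (c i : K)) ∧
    MvPolynomial.eval (periods fun i => io (s i)) P = 0 ∧
    ∃ Y ∈ Torsor fun i => io (s i), MvPolynomial.eval Y P ≠ 0}

theorem finite_frac (k : ℕ) : (Frac k).Finite := by
  refine Set.Finite.subset ((Finset.range (k + 1) ×ˢ Finset.range (k + 1)).image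
    (fun p : ℕ × ℕ => (p.1 : ℚ) / (p.2 : ℚ))).finite_toSet ?_
  rintro ρ ⟨h1, h2, h3⟩
  rw [Finset.mem_coe, Finset.mem_image]
  have hnum : 0 < ρ.num := Rat.num_pos.2 h1
  have hden : (0 : ℚ) < ρ.den := by exact_mod_cast ρ.den_pos
  have h4 := Rat.mul_den_eq_num ρ
  have hle : ρ.num < ρ.den := by
    have h5 : (ρ.num : ℚ) < ρ.den := by
      rw [← h4]
      nlinarith
    exact_mod_cast h5
  refine ⟨(ρ.num.toNat, ρ.den), ?_, ?_⟩
  · rw [Finset.mem_product, Finset.mem_range, Finset.mem_range]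
    constructor
    · show ρ.num.toNat < k + 1
      omega
    · show ρ.den < k + 1
      omega
  · show ((ρ.num.toNat : ℕ) : ℚ) / (ρ.den : ℚ) = ρ
    have h5 : ((ρ.num.toNat : ℕ) : ℚ) = (ρ.num : ℚ) := by
      have : ((ρ.num.toNat : ℕ) : ℤ) = ρ.num := Int.toNat_of_nonneg hnum.le
      exact_mod_cast this
    rw [h5, ← h4]
    field_simp

theorem finite_expo (n k : ℕ) : (Expo n k).Finite :=
  (finite_frac k).subset fun ρ h => ⟨h.1, by have := h.2.1; linarith, h.2.2.1⟩

theorem adm (n k : ℕ) : Pool.Agent.Run7.h659.CC.Adm n (fun ρ : Expo n k => (ρ : ℚ)) where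
  inj := Subtype.val_injective
  pos := fun ρ => ρ.2.1
  lt := fun ρ => ρ.2.2.1
  den := fun ρ => ⟨ρ.2.2.2.2.1, ρ.2.2.2.2.2.1, ρ.2.2.2.2.2.2.1⟩
  int := fun ρ => ρ.2.2.2.2.2.2.2

theorem real_value {n : ℕ} (ρ : ℚ) (e : Fin (n + 1) → ℝ) (he : StrictMono e) (l : Fin n) (j : ℕ) :
    period ρ (fun i => (e i : ℂ)) l j =
      ((∫ x in (e l.castSucc)..(e l.succ), x ^ j * ∏ i, |x - e i| ^ (-(ρ : ℝ)) : ℝ) : ℂ) := by
  have h1 := Pool.Agent.Run7.h659.SE.per_real (ν := fun _ => (ρ : ℝ)) he l j
  have h2 : period ρ (fun i => (e i : ℂ)) l j =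
      Pool.Agent.Run7.h659.SE.per (fun _ => ((ρ : ℝ) : ℂ)) (fun i => (e i : ℂ)) l j := by
    simp only [Complex.ofReal_ratCast]
    rfl
  rw [h2, h1]
  congr 1
  refine intervalIntegral.integral_congr fun x hx => ?_
  rw [Set.uIcc_of_le (he Fin.castSucc_lt_succ).le] at hx
  simp only [Pool.Agent.Run7.h659.SE.wt]
  congr 1
  refine Finset.prod_congr rfl fun i _ => ?_
  by_cases h : i ≤ l.castSucc
  · rw [if_pos h, abs_of_nonneg]
    have := he.monotone h
    linarith [hx.1]
  · rw [if_neg h, abs_of_nonpos, neg_sub]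
    have := he.monotone (Fin.castSucc_lt_iff_succ_le.1 (not_le.1 h))
    linarith [hx.2]

theorem real_incomplete {n : ℕ} (σ : ℚ) (e : Fin (n + 1) → ℝ) (he : StrictMono e) (b : ℝ) (hb : e (Fin.last n) < b)
    (j : ℕ) : incomplete σ (fun i => (e i : ℂ)) (b : ℂ) j =
      ((∫ x in (e (Fin.last n))..b, x ^ j * ∏ i, (x - e i) ^ (-(σ : ℝ)) : ℝ) : ℂ) := by
  set e' : Fin (n + 2) → ℝ := Fin.snoc (α := fun _ => ℝ) e b with he'
  set ν' : Fin (n + 2) → ℝ := Fin.snoc (α := fun _ => ℝ) (fun _ => (σ : ℝ)) 0 with hν'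
  have hm : StrictMono e' := by
    intro i k hik
    induction k using Fin.lastCases with
    | last =>
      induction i using Fin.lastCases with
      | last => exact absurd hik (lt_irrefl _)
      | cast i =>
        simp only [he', Fin.snoc_last, Fin.snoc_castSucc]
        exact lt_of_le_of_lt (he.monotone (Fin.le_last i)) hb
    | cast k =>
      induction i using Fin.lastCases with
      | last => exact absurd hik (not_lt.2 (Fin.le_last _))
      | cast i =>
        simp only [he', Fin.snoc_castSucc]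
        exact he (by simpa using hik)
  have h1 := Pool.Agent.Run7.h659.SE.per_real (ν := ν') hm (Fin.last n) j
  have h2 : incomplete σ (fun i => (e i : ℂ)) (b : ℂ) j =
      Pool.Agent.Run7.h659.SE.per (fun i => (ν' i : ℂ)) (fun i => (e' i : ℂ)) (Fin.last n) j := by
    have h3 := Pool.Agent.Run7.h659.MX.inc_eq (σ : ℂ) (fun i => (e i : ℂ)) (b : ℂ) j
    have e1 : (fun i => (ν' i : ℂ)) = Fin.snoc (α := fun _ => ℂ) (fun _ => (σ : ℂ)) 0 := by
      funext i
      induction i using Fin.lastCases with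
      | last => simp [hν']
      | cast i => simp [hν']
    have e2 : (fun i => (e' i : ℂ)) = Fin.snoc (α := fun _ => ℂ) (fun i => (e i : ℂ)) (b : ℂ) := by
      funext i
      induction i using Fin.lastCases with
      | last => simp [he']
      | cast i => simp [he']
    rw [e1, e2, ← h3]
    rfl
  rw [h2, h1]
  have e3 : e' (Fin.last n).castSucc = e (Fin.last n) := by rw [he', Fin.snoc_castSucc]
  have e4 : e' (Fin.last n).succ = b := by rw [he', Fin.succ_last, Fin.snoc_last]
  rw [e3, e4]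
  congr 1
  refine intervalIntegral.integral_congr fun x hx => ?_
  simp only [Pool.Agent.Run7.h659.SE.wt]
  congr 1
  rw [Fin.prod_univ_castSucc (n := n + 1)]
  simp only [he', hν', Fin.snoc_last, Fin.snoc_castSucc, neg_zero, Real.rpow_zero, mul_one]
  refine Finset.prod_congr rfl fun i _ => ?_
  rw [if_pos (Fin.castSucc_le_castSucc_iff.2 (Fin.le_last i))]

/-- **Mixed periods of cyclic covers.** All the integrals are analytic functions of the points; for real points they are
the real integrals of `x ^ j ∏ |x - e_i| ^ (- ρ)`, and the matrices `P_ρ` are invertible. Every polynomial relation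
between the periods of the `N` families, with coefficients polynomials in the points, holds on the torsor. There is
`ω → ∞` such that for all large `T`, all number fields `K` of degree at most `ω T`, all embeddings and all complex numbers
`ξ i`, `i < ω T`, the exceptional points with coordinates in `K` of height at most `T` lie on at most `T ^ (1 / ω T)`
hypersurfaces of degree at most `T ^ (1 / ω T)`, and there are at most `T ^ (1 / ω T) * N_K ^ (d - 1)` of them, `N_K` being
the number of elements of `K` of height at most `T` and `d` the number of all points. -/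
theorem result (n r : Fin N → ℕ) (hN : 0 < N) :
    (∀ (k : ℕ) (y : Ind n r k), AnalyticOnNhd ℂ (fun z => periods z y) (Dom n r)) ∧
    (∀ (m : ℕ) (ρ : ℚ) (e : Fin (m + 1) → ℝ), StrictMono e → ∀ (l : Fin m) (j : ℕ),
      period ρ (fun i => (e i : ℂ)) l j =
        ((∫ x in (e l.castSucc)..(e l.succ), x ^ j * ∏ i, |x - e i| ^ (-(ρ : ℝ)) : ℝ) : ℂ)) ∧
    (∀ (m : ℕ) (σ : ℚ) (e : Fin (m + 1) → ℝ), StrictMono e → ∀ b : ℝ, e (Fin.last m) < b → ∀ j : ℕ,
      incomplete σ (fun i => (e i : ℂ)) (b : ℂ) j =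
        ((∫ x in (e (Fin.last m))..b, x ^ j * ∏ i, (x - e i) ^ (-(σ : ℝ)) : ℝ) : ℂ)) ∧
    (∀ (m k : ℕ) (e : Fin (m + 1) → ℝ), StrictMono e → ∀ ρ : Expo m k,
      (Matrix.of fun (l i : Fin m) => period (ρ : ℚ) (fun i => (e i : ℂ)) l (i : ℕ)).det ≠ 0) ∧
    (∀ (k : ℕ) (p : MvPolynomial (Ind n r k) (MvPolynomial (Coord n r) ℂ)),
      (∀ z ∈ Dom n r, p.eval₂ (MvPolynomial.eval z) (periods z) = 0) →
      ∀ z ∈ Dom n r, ∀ Y ∈ Torsor z, p.eval₂ (MvPolynomial.eval z) Y = 0) ∧
    ∃ (ω : ℝ → ℕ) (T₀ : ℝ), Tendsto ω atTop atTop ∧ Monotone ω ∧ ∀ T, T₀ ≤ T → 0 < ω T ∧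
      ∀ (K : Type) [Field K] [NumberField K], Module.finrank ℚ K ≤ ω T → ∀ (io : K →+* ℂ) (ξ : Fin (ω T) → ℂ),
        Covered ⌊T ^ ((ω T : ℝ)⁻¹)⌋₊ ⌊T ^ ((ω T : ℝ)⁻¹)⌋₊
          ((fun (s : Coord n r → K) i => io (s i)) '' Exceptional n r K io (ω T) ξ T) ∧
        (Exceptional n r K io (ω T) ξ T).Finite ∧
        ((Exceptional n r K io (ω T) ξ T).ncard : ℝ) ≤
          T ^ ((ω T : ℝ)⁻¹) * ({x : K | Height K T x}.ncard : ℝ) ^ (Fintype.card (Coord n r) - 1) := by
  classical
  have hft : ∀ m k, Fintype (Expo m k) := fun m k => (finite_expo m k).fintype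
  have hft' : ∀ k, Fintype (Frac k) := fun k => (finite_frac k).fintype
  have hper : ∀ (k : ℕ) (z : Coord n r → ℂ) (y : Ind n r k), periods z y =
      Pool.Agent.Run7.h659.MX.ms (r := r) (fun j (ρ : Expo (n j) k) => (ρ : ℚ)) (fun _ (σ : Frac k) => (σ : ℚ)) y z := by
    rintro k z ⟨j, x | y⟩ <;> rfl
  have hf : ∀ k : ℕ, (fun (y : Ind n r k) z => periods z y) =
      Pool.Agent.Run7.h659.MX.ms (r := r) (fun j (ρ : Expo (n j) k) => (ρ : ℚ)) (fun _ (σ : Frac k) => (σ : ℚ)) := by
    intro k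
    funext y z
    exact hper k z y
  have hdom : Dom n r = Pool.Agent.Run7.h659.MX.DS n r := rfl
  have htor : ∀ (k : ℕ) (z : Coord n r → ℂ), (Torsor z : Set (Ind n r k → ℂ)) ⊆
      Pool.Agent.Run7.h659.MX.TS fun y => periods z y := by
    rintro k z Y ⟨g, hg, hY⟩
    refine ⟨g, hg, fun j x => ?_⟩
    rw [hY j x.1 x.2.1 x.2.2, Matrix.mul_apply]
    rfl
  have htor' : ∀ (k : ℕ) (z : Coord n r → ℂ), z ∈ Dom n r →
      (Pool.Agent.Run7.h659.MX.TS fun y : Ind n r k => periods z y) ⊆
        Pool.Agent.N207.GS.Fib (Dom n r) (fun (y : Ind n r k) z => periods z y) z := by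
    intro k z hz
    have h1 := Pool.Agent.Run7.h659.MX.TS_fib (N := Fin N) (n := n) (r := r)
      (ρ := fun j (ρ : Expo (n j) k) => (ρ : ℚ)) (fun j => adm (n j) k)
      (σ := fun _ (σ : Frac k) => (σ : ℚ)) (fun _ => Subtype.val_injective) (fun _ σ => σ.2.1) (fun _ σ => σ.2.2.1) hz
    rw [← hf k] at h1
    exact h1
  have han : ∀ (k : ℕ) (y : Ind n r k), AnalyticOnNhd ℂ (fun z => periods z y) (Dom n r) := by
    intro k y
    have h1 := Pool.Agent.Run7.h659.MX.ms_an (N := Fin N) (n := n) (r := r)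
      (ρ := fun j (ρ : Expo (n j) k) => (ρ : ℚ)) (σ := fun _ (σ : Frac k) => (σ : ℚ))
      (fun j ρ => by have := ρ.2.2.1; linarith) (fun _ σ => σ.2.2.1) y
    rw [show (fun z : Coord n r → ℂ => periods z y) = _ from funext fun z => hper k z y]
    exact h1
  refine ⟨han, fun m ρ e he l j => real_value ρ e he l j, fun m σ e he b hb j => real_incomplete σ e he b hb j,
    ?_, ?_, ?_⟩
  · intro m k e he ρ
    have h1 := Pool.Agent.Run7.h659.SE.det_FF (ν := Pool.Agent.Run7.h659.CC.nu m (fun ρ : Expo m k => (ρ : ℚ)))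
      (fun i _ => ⟨by
        have h2 : (0 : ℝ) < ((i : ℚ) : ℝ) := by exact_mod_cast i.2.1
        exact h2.le, by
        have h2 : ((i : ℚ) : ℝ) < ((1 / 2 : ℚ) : ℝ) := by exact_mod_cast i.2.2.1
        push_cast at h2
        show ((i : ℚ) : ℝ) < 1
        linarith⟩) he ρ
    rw [← Pool.Agent.Run7.h659.CC.FM_real] at h1
    exact h1
  · intro k p hp z hz Y hY
    exact htor' k z hz (htor k z hY) p hp
  · have hne : Nonempty (Coord n r) := ⟨⟨⟨0, hN⟩, Sum.inl 0⟩⟩
    refine N207.GS.few_of (X := Coord n r) (fun K _ _ io k ξ T => Exceptional n r K io k ξ T)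
      (fun K _ _ io k ξ T s hs => hs.1) ?_
    intro k ε hk hε
    obtain ⟨D, C, T₀, hC, hT₀, H⟩ := N207.GS.comp (X := Coord n r) (U := Dom n r)
      (f := fun (y : Ind n r k) z => periods z y)
      Pool.Agent.Run7.h659.MX.DS_conn Pool.Agent.Run7.h659.MX.DS_open Pool.Agent.Run7.h659.MX.DS_nonempty
      (fun x => han k x)
      (Y890.MV.InnerM (Dom n r) k) (Y890.MV.innerM_compact _ _) (Y890.MV.innerM_sub _ hk) k (Fin k) k k ε hε
    refine ⟨D, C, T₀, hC, hT₀, fun K _ _ hK io ξ T hT => ?_⟩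
    refine Y124.Cov.mono (H K hK io ξ T hT) le_rfl le_rfl (Set.image_mono ?_)
    rintro s ⟨h1, h2, P, h3, h4, h5, Y, hY, h6⟩
    choose c hc hc' using h4
    refine ⟨h1, h2, fun l => c (Finsupp.equivFunOnFinite.symm fun y => (l y : ℕ)), fun l i φ => hc _ i φ, ?_,
      Pool.Agent.Run7.h659.MX.TS fun y => periods (fun i => io (s i)) y,
      Pool.Agent.Run7.h659.MX.irr_TS _, Pool.Agent.Run7.h659.MX.TS_self _,
      htor' k _ (Y890.MV.innerM_sub _ hk h2), Y, htor k _ hY, ?_⟩
    · rw [← h5, ← Y119.PLM.sum_expM h3]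
      refine Finset.sum_congr rfl fun l _ => ?_
      rw [hc']
    · intro h7
      apply h6
      rw [← h7, ← Y119.PLM.sum_expM h3]
      refine Finset.sum_congr rfl fun l _ => ?_
      rw [hc']

end Pool.Agent.Results.MP_5d33ca_ag.MixedCyclicCovers
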