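import Pool.Agent.Run7.h659.SE9
import Pool.Agent.N207.CF.Main

/-!
# Periods of superelliptic curves with varying exponents

The integrals of `x ^ j ∏ (x - e_i) ^ (- μ_i) dx`, `j < n`, between consecutive points `e_0, …, e_n`. For rational
`μ_i = a_i / N` they are periods of the curve `y ^ N = ∏ (x - e_i) ^ a_i` (of the differentials `x ^ j dx / y`). We take
`R` systems of exponents `μ_r` and the same points `e`, that is `R` superelliptic curves with common branch points.
The `R n ^ 2` integrals are algebraically independent functions of the exponents and the points, and at almost all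
points with rational exponents and algebraic `e` there is no relation of growing degree and height between them.
-/

set_option autoImplicit false

open Filter NumberField

namespace Pool.Agent.Results.MP_cbf1af_ag.SuperellipticPeriods

/-- the integral over the segment from `e_l` to `e_(l+1)` of
`x ^ j ∏_(i ≤ l) (x - e_i) ^ (- μ_i) ∏_(i > l) (e_i - x) ^ (- μ_i) dx` (principal values of the powers) -/
noncomputable def period {n : ℕ} (μ e : Fin (n + 1) → ℂ) (l : Fin n) (j : ℕ) : ℂ :=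
  ∫ u in (0 : ℝ)..1, (e l.succ - e l.castSucc) *
    (fun x : ℂ => x ^ j * ∏ i, (if i ≤ l.castSucc then x - e i else e i - x) ^ (-μ i))
      ((1 - u) * e l.castSucc + u * e l.succ)

/-- the coordinates: `R` systems of `n + 1` exponents and `n + 1` points -/
abbrev Coord (R n : ℕ) := (Fin R × Fin (n + 1)) ⊕ Fin (n + 1)

/-- the domain: exponents with real parts less than one, points with increasing real parts -/
def Dom (R n : ℕ) : Set (Coord R n → ℂ) :=
  {z | (∀ x, (z (Sum.inl x)).re < 1) ∧ ∀ i k : Fin (n + 1), i < k → (z (Sum.inr i)).re < (z (Sum.inr k)).re}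

/-- the `R n ^ 2` integrals: `r < R` the number of the system, `l < n` the gap, `x ^ j dx`, `j < n`, the form -/
noncomputable def value {R n : ℕ} (z : Coord R n → ℂ) (x : Fin R × Fin n × Fin n) : ℂ :=
  period (fun i => z (Sum.inl (x.1, i))) (fun i => z (Sum.inr i)) x.2.1 (x.2.2 : ℕ)

/-- `x` is a quotient of two integers of `K` all of whose conjugates are at most `T` in absolute value -/
def Height (K : Type) [Field K] [NumberField K] (T : ℝ) (x : K) : Prop :=
  ∃ a b : 𝓞 K, b ≠ 0 ∧ house (a : K) ≤ T ∧ house (b : K) ≤ T ∧ x = a / b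

/-- the points of norm at most `k` at distance at least `1 / k` from the complement of `U` -/
def Inner {X : Type} [Fintype X] (U : Set (X → ℂ)) (k : ℕ) : Set (X → ℂ) := {z | ‖z‖ ≤ k ∧ Metric.ball z (k : ℝ)⁻¹ ⊆ U}

/-- `S` is covered by `m` hypersurfaces of degree at most `D` -/
def Covered {X : Type} (D m : ℕ) (S : Set (X → ℂ)) : Prop :=
  ∃ Φ : Finset (MvPolynomial X ℂ), Φ.card ≤ m ∧ (∀ R ∈ Φ, R ≠ 0 ∧ R.totalDegree ≤ D) ∧
    ∀ x ∈ S, ∃ R ∈ Φ, MvPolynomial.eval x R = 0

/-- the complex point with rational exponents `m` and points `s i` in `K` -/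
def point {R n : ℕ} {K : Type} [Field K] (io : K →+* ℂ) (s : (Fin R × Fin (n + 1) → ℚ) × (Fin (n + 1) → K)) :
    Coord R n → ℂ :=
  Sum.elim (fun x => ((s.1 x : ℚ) : ℂ)) fun i => io (s.2 i)

/-- **The exceptional points** with rational exponents and points in `K`, of height at most `T`, in the compact set
`Inner (Dom R n) k`: some nonzero polynomial `P` of partial degrees at most `k`, whose coefficients are combinations
`∑ ξ i * c i` with integers `c i` of `K` all of whose conjugates are at most `T ^ k`, vanishes at the `R n ^ 2`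
integrals -/
def Exceptional (R n : ℕ) (K : Type) [Field K] [NumberField K] (io : K →+* ℂ) (k : ℕ) (ξ : Fin k → ℂ) (T : ℝ) :
    Set ((Fin R × Fin (n + 1) → ℚ) × (Fin (n + 1) → K)) :=
  {s | (∀ x, Height ℚ T (s.1 x)) ∧ (∀ i, Height K T (s.2 i)) ∧ point io s ∈ Inner (Dom R n) k ∧
    ∃ P : MvPolynomial (Fin R × Fin n × Fin n) ℂ, P ≠ 0 ∧ (∀ y, P.degreeOf y ≤ k) ∧
    (∀ m, ∃ c : Fin k → 𝓞 K, (∀ i (φ : K →+* ℂ), ‖φ (c i : K)‖ ≤ T ^ (k : ℝ)) ∧
      P.coeff m = ∑ i, ξ i * io (c i : K)) ∧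
    MvPolynomial.eval (value (point io s)) P = 0}

theorem height_map {K : Type} [Field K] [NumberField K] {T : ℝ} {x : ℚ} (h : Height ℚ T x) :
    Height K T ((x : ℚ) : K) := by
  obtain ⟨a, b, hb, h1, h2, h3⟩ := h
  let ψ : 𝓞 ℚ →+* 𝓞 K := RingOfIntegers.mapRingHom (algebraMap ℚ K)
  have hψ : ∀ x : 𝓞 ℚ, ((ψ x : 𝓞 K) : K) = algebraMap ℚ K (x : ℚ) := fun x => rfl
  refine ⟨ψ a, ψ b, ?_, ?_, ?_, ?_⟩
  · intro h0
    have h5 := congrArg (fun x : 𝓞 K => (x : K)) h0
    simp only [hψ] at h5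
    have h6 : algebraMap ℚ K (b : ℚ) = 0 := h5
    rw [map_eq_zero] at h6
    exact hb (RingOfIntegers.coe_eq_zero_iff.1 h6)
  · rw [hψ]
    exact Pool.Agent.N207.CF.house_le_of_map _ _ h1
  · rw [hψ]
    exact Pool.Agent.N207.CF.house_le_of_map _ _ h2
  · rw [hψ, hψ, h3, eq_ratCast, eq_ratCast]
    exact Rat.cast_div _ _

theorem real_value {n : ℕ} (μ e : Fin (n + 1) → ℝ) (he : StrictMono e) (l : Fin n) (j : ℕ) :
    period (fun i => (μ i : ℂ)) (fun i => (e i : ℂ)) l j =
      ((∫ x in (e l.castSucc)..(e l.succ), x ^ j * ∏ i, |x - e i| ^ (-μ i) : ℝ) : ℂ) := by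
  have h1 := Pool.Agent.Run7.h659.SE.per_real (ν := μ) he l j
  have h2 : period (fun i => (μ i : ℂ)) (fun i => (e i : ℂ)) l j =
      Pool.Agent.Run7.h659.SE.per (fun i => (μ i : ℂ)) (fun i => (e i : ℂ)) l j := rfl
  rw [h2, h1]
  congr 1
  refine intervalIntegral.integral_congr fun x hx => ?_
  rw [Set.uIcc_of_le (he Fin.castSucc_lt_succ).le] at hx
  simp only [Pool.Agent.Run7.h659.SE.wt]
  congr 1
  refine Finset.prod_congr rfl fun i _ => ?_
  by_cases h : i ≤ l.castSucc
  · rw [if_pos h, abs_of_nonneg]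
    have := he.monotone h
    linarith [hx.1]
  · rw [if_neg h, abs_of_nonpos, neg_sub]
    have := he.monotone (Fin.castSucc_lt_iff_succ_le.1 (not_le.1 h))
    linarith [hx.2]

/-- **Periods of superelliptic curves with varying exponents.** The `R n ^ 2` integrals are analytic functions of the
exponents (with real parts less than one) and the points (with increasing real parts); for real arguments they are the
integrals of `x ^ j ∏ |x - e_i| ^ (- μ_i)`; they are algebraically independent over the field of rational functions of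
the exponents and the points. There is `ω → ∞` such that for all large `T`, all number fields `K` of degree at most
`ω T`, all embeddings and all complex numbers `ξ i`, `i < ω T`, the exceptional points (rational exponents, points in
`K`, height at most `T`) lie on at most `T ^ (1 / ω T)` hypersurfaces of degree at most `T ^ (1 / ω T)`, and there are at
most `T ^ (2 / ω T) * (N_ℚ ^ (R (n + 1)) * N_K ^ (n + 1)) / N_ℚ` of them, `N_ℚ` and `N_K` being the numbers of elements
of `ℚ` and `K` of height at most `T`. -/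
theorem result (R n : ℕ) :
    (∀ x : Fin R × Fin n × Fin n, AnalyticOnNhd ℂ (fun z => value z x) (Dom R n)) ∧
    (∀ μ e : Fin (n + 1) → ℝ, (∀ i, μ i < 1) → StrictMono e → ∀ (l : Fin n) (j : ℕ),
      period (fun i => (μ i : ℂ)) (fun i => (e i : ℂ)) l j =
        ((∫ x in (e l.castSucc)..(e l.succ), x ^ j * ∏ i, |x - e i| ^ (-μ i) : ℝ) : ℂ)) ∧
    (∀ p : MvPolynomial (Fin R × Fin n × Fin n) (MvPolynomial (Coord R n) ℂ),
      (∀ z ∈ Dom R n, p.eval₂ (MvPolynomial.eval z) (value z) = 0) → p = 0) ∧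
    ∃ (ω : ℝ → ℕ) (T₀ : ℝ), Tendsto ω atTop atTop ∧ Monotone ω ∧ ∀ T, T₀ ≤ T → 0 < ω T ∧
      ∀ (K : Type) [Field K] [NumberField K], Module.finrank ℚ K ≤ ω T → ∀ (io : K →+* ℂ) (ξ : Fin (ω T) → ℂ),
        Covered ⌊T ^ ((ω T : ℝ)⁻¹)⌋₊ ⌊T ^ ((ω T : ℝ)⁻¹)⌋₊ (point io '' Exceptional R n K io (ω T) ξ T) ∧
        (Exceptional R n K io (ω T) ξ T).Finite ∧
        ((Exceptional R n K io (ω T) ξ T).ncard : ℝ) * {x : ℚ | Height ℚ T x}.ncard ≤
          T ^ (2 * (ω T : ℝ)⁻¹) * (({x : ℚ | Height ℚ T x}.ncard : ℝ) ^ (R * (n + 1)) *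
            ({x : K | Height K T x}.ncard : ℝ) ^ (n + 1)) := by
  classical
  have hD : Dom R n = Pool.Agent.Run7.h659.SE.Dom (Fin R) n := rfl
  have hv : (fun (x : Fin R × Fin n × Fin n) (z : Coord R n → ℂ) => value z x) =
      Pool.Agent.Run7.h659.SE.pf (ι := Fin R) (n := n) := rfl
  have han : ∀ x : Fin R × Fin n × Fin n, AnalyticOnNhd ℂ (fun z => value z x) (Dom R n) :=
    fun x => Pool.Agent.Run7.h659.SE.pf_an x
  have hind := Pool.Agent.Run7.h659.SE.ind_pf (ι := Fin R) (n := n)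
  refine ⟨han, fun μ e _ he l j => real_value μ e he l j, fun p hp => hind p hp, ?_⟩
  obtain ⟨ω, T₀, h1, h2, h3⟩ := N207.AX.few_ind (X := Coord R n) (f := fun x z => value z x)
    (Pool.Agent.Run7.h659.SE.Dom_convex (ι := Fin R) (n := n)).isPreconnected
    Pool.Agent.Run7.h659.SE.Dom_open Pool.Agent.Run7.h659.SE.Dom_nonempty han hind
  refine ⟨ω, max T₀ 1, h1, h2, fun T hT => ⟨(h3 T ((le_max_left _ _).trans hT)).1, ?_⟩⟩
  intro K _ _ hK io ξ
  have hT1 : 1 ≤ T := (le_max_right _ _).trans hT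
  have hTp : 0 < T := by linarith
  obtain ⟨hcov, -, -⟩ := (h3 T ((le_max_left _ _).trans hT)).2 K hK io ξ
  have hcov' : Covered ⌊T ^ ((ω T : ℝ)⁻¹)⌋₊ ⌊T ^ ((ω T : ℝ)⁻¹)⌋₊ (point io '' Exceptional R n K io (ω T) ξ T) := by
    refine Pool.Agent.Y124.Cov.mono hcov le_rfl le_rfl ?_
    rintro _ ⟨s, ⟨hs1, hs2, hs3, P, hs4, hs5, hs6, hs7⟩, rfl⟩
    have hpt : (fun x : Coord R n => io (Sum.elim (fun x => ((s.1 x : ℚ) : K)) s.2 x)) = point io s := by
      funext x
      rcases x with x | x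
      · show io ((s.1 x : ℚ) : K) = ((s.1 x : ℚ) : ℂ)
        exact map_ratCast io _
      · rfl
    refine ⟨Sum.elim (fun x => ((s.1 x : ℚ) : K)) s.2, ⟨?_, ?_, P, hs4, hs5, hs6, ?_⟩, hpt⟩
    · rintro (x | x)
      · exact height_map (hs1 x)
      · exact hs2 x
    · rw [hpt]
      exact hs3
    · rw [hpt]
      exact hs7
  -- the grid
  have hfQ : {x : ℚ | Height ℚ T x}.Finite := Y120.HtLe_fin ℚ T
  have hfK : {x : K | Height K T x}.Finite := Y120.HtLe_fin K T
  have hcast : Function.Injective fun x : ℚ => (x : ℂ) := Rat.cast_injective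
  set SQ : Finset ℂ := hfQ.toFinset.image fun x : ℚ => (x : ℂ) with hSQ
  set SK : Finset ℂ := hfK.toFinset.image fun x : K => io x with hSK
  have cQ : SQ.card = {x : ℚ | Height ℚ T x}.ncard := by
    rw [hSQ, Finset.card_image_of_injective _ hcast, Set.ncard_eq_toFinset_card _ hfQ]
  have cK : SK.card = {x : K | Height K T x}.ncard := by
    rw [hSK, Finset.card_image_of_injective _ io.injective, Set.ncard_eq_toFinset_card _ hfK]
  have hQK : SQ ⊆ SK := by
    intro y hy
    rw [hSQ, Finset.mem_image] at hy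
    obtain ⟨x, hx, rfl⟩ := hy
    rw [Set.Finite.mem_toFinset] at hx
    rw [hSK, Finset.mem_image]
    exact ⟨(x : K), by rw [Set.Finite.mem_toFinset]; exact height_map hx, map_ratCast io x⟩
  have hQ0 : 0 < SQ.card := by
    rw [cQ]
    have h4 : (1 : ℝ) ≤ ({x : ℚ | Height ℚ T x}.ncard : ℝ) := Y120.NK_ge ℚ T hT1
    have h5 : 1 ≤ {x : ℚ | Height ℚ T x}.ncard := by exact_mod_cast h4
    omega
  obtain ⟨hf, hn⟩ := Pool.Agent.Run7.h659.SE.count_grid (X := Coord R n)
    (Sum.elim (fun _ => SQ) fun _ => SK) hQ0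
    (by
      rintro (x | x)
      · exact le_rfl
      · exact Finset.card_le_card hQK)
    (E := point io '' Exceptional R n K io (ω T) ξ T)
    (by
      rintro _ ⟨s, ⟨hs1, hs2, -⟩, rfl⟩ (x | x)
      · show ((s.1 x : ℚ) : ℂ) ∈ SQ
        rw [hSQ, Finset.mem_image]
        exact ⟨s.1 x, by rw [Set.Finite.mem_toFinset]; exact hs1 x, rfl⟩
      · show io (s.2 x) ∈ SK
        rw [hSK, Finset.mem_image]
        exact ⟨s.2 x, by rw [Set.Finite.mem_toFinset]; exact hs2 x, rfl⟩)
    hcov'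
  have hinj : Function.Injective (point (R := R) (n := n) io) := by
    intro s s' h
    refine Prod.ext (funext fun x => ?_) (funext fun x => ?_)
    · have := congrFun h (Sum.inl x)
      exact hcast this
    · have := congrFun h (Sum.inr x)
      exact io.injective this
  refine ⟨hcov', Set.Finite.of_finite_image hf hinj.injOn, ?_⟩
  rw [Set.ncard_image_of_injective _ hinj, cQ, Fintype.prod_sum_type] at hn
  simp only [Sum.elim_inl, Sum.elim_inr, Finset.prod_const, Finset.card_univ, Fintype.card_prod, Fintype.card_fin,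
    cQ, cK] at hn
  have hn' : ((Exceptional R n K io (ω T) ξ T).ncard : ℝ) * {x : ℚ | Height ℚ T x}.ncard ≤
      (⌊T ^ ((ω T : ℝ)⁻¹)⌋₊ : ℝ) * ((⌊T ^ ((ω T : ℝ)⁻¹)⌋₊ : ℝ) * (({x : ℚ | Height ℚ T x}.ncard : ℝ) ^ (R * (n + 1)) *
            ({x : K | Height K T x}.ncard : ℝ) ^ (n + 1))) := by
    exact_mod_cast hn
  refine hn'.trans ?_
  rw [← mul_assoc]
  refine mul_le_mul_of_nonneg_right ?_ (by positivity)
  have h4 : (⌊T ^ ((ω T : ℝ)⁻¹)⌋₊ : ℝ) ≤ T ^ ((ω T : ℝ)⁻¹) := Nat.floor_le (by positivity)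
  calc (⌊T ^ ((ω T : ℝ)⁻¹)⌋₊ : ℝ) * (⌊T ^ ((ω T : ℝ)⁻¹)⌋₊ : ℝ) ≤ T ^ ((ω T : ℝ)⁻¹) * T ^ ((ω T : ℝ)⁻¹) :=
        mul_le_mul h4 h4 (Nat.cast_nonneg _) (by positivity)
    _ = T ^ (2 * (ω T : ℝ)⁻¹) := by
        rw [← Real.rpow_add hTp]
        congr 1
        ring

end Pool.Agent.Results.MP_cbf1af_ag.SuperellipticPeriods
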